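import Pool.Agent.MP_1037db_co.Q.Chk

/-! A faster checker of wake-up trees. -/

namespace Pool.Agent.MP_1037db_co.F

open Nat (add mul sub land lor xor shiftLeft shiftRight ble beq)
open Pool.Agent.MP_1037db_co.LP Pool.Agent.MP_1037db_co.Q

noncomputable section

/-- header number `k` -/
def h2 (H : Tr) (k : Nat) : Nat :=
  Nat.rec (nat_lit 0) (fun c _ => land (shiftRight (H.get c) (mul (land k (nat_lit 255)) (nat_lit 128))) (nat_lit 340282366920938463463374607431768211455)) (add (shiftRight k (nat_lit 8)) (nat_lit 1))

def b3 (x B : Nat) : Nat :=
  cu3 (mul (land B ON) (land (sub (shiftRight (shiftLeft (nat_lit 1) (nat_lit 31)) (land (shiftRight x (nat_lit 52)) (nat_lit 31)))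
    (shiftLeft (nat_lit 1) (land (shiftRight x (nat_lit 46)) (nat_lit 31)))) (nat_lit 65535)))

/-- the region of a node without flags -/
def n0 (H : Tr) (k : Nat) : Nat :=
  b3 (h2 H k) (sub (shiftRight (shiftLeft (nat_lit 1) (nat_lit 6240)) (land (shiftRight (h2 H k) (nat_lit 115)) (nat_lit 4080)))
    (shiftLeft (shiftLeft (nat_lit 1) (nat_lit 2160)) (land (shiftRight (h2 H k) (nat_lit 104)) (nat_lit 4080))))

def n1 (H : Tr) (k : Nat) : Nat :=
  b3 (h2 H k) (sub (shiftRight (shiftLeft (nat_lit 1) (nat_lit 6016)) (land (shiftRight (h2 H k) (nat_lit 104)) (nat_lit 4080)))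
    (shiftLeft (shiftLeft (nat_lit 1) (nat_lit 1936)) (land (shiftRight (h2 H k) (nat_lit 115)) (nat_lit 4080))))

def zf (H : Tr) (M a k : Nat) : Nat :=
  add (add (land (h2 H k) (nat_lit 169559321693759672634918283878271549440)) (add (mul k (nat_lit 10889035741470030830827987437816582766592)) a)) (mul (land (h2 H k) M) (nat_lit 8749002899259362446010914288862263316938264250957424987683741951865249249594447408324457076761821184))

def yf (H : Tr) (a k : Nat) : Nat := add (land (h2 H k) (nat_lit 169559402822469627489769461608636809215)) (add (mul k (nat_lit 10889035741470030830827987437816582766592)) a)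

def dw (DT : Tr) (x c y : Nat) : Nat :=
  Nat.rec (nat_lit 0) (fun p _ => dp (land (shiftRight (DT.get p) (mul y (nat_lit 72))) (nat_lit 26327771615106622073631788543845694075442754821128109490054168575)))
    (add (add (mul (land x (nat_lit 15)) (nat_lit 32)) (land c (nat_lit 15))) (nat_lit 1))

def d0 (DT : Tr) (x c : Nat) : Nat := dw DT x c (Nat.mod (sub (add (shiftRight c (nat_lit 4)) (nat_lit 360)) (shiftRight x (nat_lit 4))) (nat_lit 120))

def e0 (DT : Tr) (x c : Nat) : Nat := add (d0 DT x c) (mul (sub (nat_lit 31) (land c (nat_lit 15))) (nat_lit 1099511627776))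

def e1 (DT : Tr) (x c : Nat) : Nat :=
  add (dw DT x c (sub (nat_lit 120) (Nat.mod (sub (add (shiftRight c (nat_lit 4)) (nat_lit 360)) (shiftRight x (nat_lit 4))) (nat_lit 120))))
    (mul (sub (nat_lit 31) (land c (nat_lit 15))) (nat_lit 1099511627776))

abbrev KT3 := Nat → Nat → Nat → Bool

abbrev MV := Nat → Nat → Nat → Nat → KT3 → KT3

/-- arguments: `M0 M1 o G0 G1 H DT I nx X0 X1 x c w κ` -/
abbrev BR := Nat → Nat → Nat → Nat → Nat → Tr → Tr → Nat → MV → Nat → Nat → Nat → Nat → Nat → KT3 → KT3

def a0 : BR := fun M0 _ _ G0 _ H DT _ _ X0 _ x c _ κ s N V =>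
  Nat.rec false (fun r _ => Bool.rec false (κ (shiftRight s (nat_lit 24)) (xor N (land N (shiftRight (n0 H r) (sub (nat_lit 4080) (land c (nat_lit 4080)))))) V) 
    (beq (land (sub (sub (add X0 (nat_lit 68719476736)) (zf H M0 (nat_lit 2801973672888163648873723073972345503744) r)) (e0 DT x c)) (add G0 (nat_lit 34084860461056))) G0))
    (land (shiftRight s (nat_lit 7)) (nat_lit 131071))

def a1 : BR := fun _ M1 _ _ G1 H DT _ _ _ X1 x c _ κ s N V =>
  Nat.rec false (fun r _ => Bool.rec false (κ (shiftRight s (nat_lit 24)) (xor N (land N (shiftRight (n1 H r) (sub (nat_lit 4080) (land c (nat_lit 4080)))))) V) 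
    (beq (land (sub (sub (add X1 (nat_lit 68719476736)) (zf H M1 (nat_lit 4163103140571917502727221503699418349568) r)) (e1 DT x c)) (add G1 (nat_lit 34084860461056))) G1))
    (land (shiftRight s (nat_lit 7)) (nat_lit 131071))

def a2 : BR := fun M0 _ _ G0 _ H DT _ _ X0 _ x c _ κ s N V =>
  Nat.rec false (fun r _ => Bool.rec false (Nat.rec false (fun q _ => Bool.rec false
    (κ (shiftRight s (nat_lit 41)) (xor N (land N (shiftRight (lor (n0 H r) (n0 H q)) (sub (nat_lit 4080) (land c (nat_lit 4080)))))) V) 
    (beq (land (sub (sub X0 (zf H M0 (nat_lit 2801973672888163648873723073972345503744) q)) (e0 DT x c)) (add G0 (nat_lit 34084860461056))) G0)) (land (shiftRight s (nat_lit 24)) (nat_lit 131071))) 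
    (beq (land (sub (sub X0 (zf H M0 (nat_lit 2801973672888163648873723073972345503744) r)) (e0 DT x c)) (add G0 (nat_lit 34084860461056))) G0))
    (land (shiftRight s (nat_lit 7)) (nat_lit 131071))

def a3 : BR := fun M0 M1 _ G0 G1 H DT _ _ X0 X1 x c _ κ s N V =>
  Nat.rec false (fun r _ => Bool.rec false (Nat.rec false (fun q _ => Bool.rec false
    (κ (shiftRight s (nat_lit 41)) (xor N (land N (shiftRight (lor (n0 H r) (n1 H q)) (sub (nat_lit 4080) (land c (nat_lit 4080)))))) V) 
    (beq (land (sub (sub X1 (zf H M1 (nat_lit 4163103140571917502727221503699418349568) q)) (e1 DT x c)) (add G1 (nat_lit 34084860461056))) G1)) (land (shiftRight s (nat_lit 24)) (nat_lit 131071))) 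
    (beq (land (sub (sub X0 (zf H M0 (nat_lit 2801973672888163648873723073972345503744) r)) (e0 DT x c)) (add G0 (nat_lit 34084860461056))) G0))
    (land (shiftRight s (nat_lit 7)) (nat_lit 131071))

def a4 : BR := fun _ M1 _ _ G1 H DT _ _ _ X1 x c _ κ s N V =>
  Nat.rec false (fun r _ => Bool.rec false (Nat.rec false (fun q _ => Bool.rec false
    (κ (shiftRight s (nat_lit 41)) (xor N (land N (shiftRight (lor (n1 H r) (n1 H q)) (sub (nat_lit 4080) (land c (nat_lit 4080)))))) V) 
    (beq (land (sub (sub X1 (zf H M1 (nat_lit 4163103140571917502727221503699418349568) q)) (e1 DT x c)) (add G1 (nat_lit 34084860461056))) G1)) (land (shiftRight s (nat_lit 24)) (nat_lit 131071))) 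
    (beq (land (sub (sub X1 (zf H M1 (nat_lit 4163103140571917502727221503699418349568) r)) (e1 DT x c)) (add G1 (nat_lit 34084860461056))) G1))
    (land (shiftRight s (nat_lit 7)) (nat_lit 131071))

/-- the four values of a move; nothing has to be known about them -/
def ux (o s : Nat) : Nat :=
  add (land (sub (add (mul (land s (nat_lit 8388480)) (nat_lit 324518553663149093266094385266689))
    (land (mul (land (shiftRight s (nat_lit 23)) (nat_lit 68719476735)) (nat_lit 41538374868278768602196560310697984)) (nat_lit 170099645088076228726356032981387182080)))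
    (nat_lit 85070591731472555905147046531350659072)) (sub (nat_lit 2722217397032252905880767428921915342720) o)) (nat_lit 1)

def a5 : BR := fun M0 _ o G0 _ H DT I nx X0 _ x c w κ s N V =>
  Nat.rec false (fun U _ => Bool.rec false (Nat.rec false (fun r _ => Bool.rec false
    (nx w c
      (add (add I (mul (land U (nat_lit 576451956218789760)) (nat_lit 1231317390722493023050436523690298797121412248926023921711381851619923411212114921682028062455839084436071414497280))) (mul (land (lor U o) (nat_lit 2722217397032252905880190976965696552960)) (nat_lit 11692057700137620406878237622690113180259560980480)))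
      (add (add I (mul (land U (nat_lit 576451956218789760)) (nat_lit 55214181398907847413863134791971708580880385329287060348976672884654080))) (mul (land (lor U o) (nat_lit 2722217397032252905880190976965696552960)) (nat_lit 260741599617287038615700573062295606103682006744275706347821331954882146582240646160638279680)))
      κ (shiftRight s (nat_lit 76)) (xor N (land N (shiftRight (n0 H r) (sub (nat_lit 4080) (land c (nat_lit 4080)))))) V)
    (beq (land (sub (sub X0 (zf H M0 (nat_lit 2801973672888163648873723073972345503744) r)) (e0 DT x c)) (add G0 (nat_lit 34084860461056))) G0)) (land (shiftRight s (nat_lit 59)) (nat_lit 131071)))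
    (beq (land (sub (sub X0 (d0 DT x c)) (add (add (mul (land U (nat_lit 39613476794222361482193010560)) (nat_lit 68351585150463769109460267881736432163580189460604882716279233998947259762456620377534820912201728))
      (mul (land U (nat_lit 2722217396992639429086545067439722332160)) (nat_lit 260740604974608494222489425208039978651352651445788889756314216609753645944429856786860736512))) (nat_lit 2801973672888163648873723108057205964800))) (add G0 (nat_lit 34084860461056))) G0)) (ux o s)

def a6 : BR := fun _ M1 o G0 G1 H DT I nx X0 X1 x c w κ s N V =>
  Nat.rec false (fun U _ => Bool.rec false (Nat.rec false (fun r _ => Bool.rec false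
    (nx w c
      (add (add I (mul (land U (nat_lit 576451956218789760)) (nat_lit 1231317390722493023050436523690298797121412248926023921711381851619923411212114921682028062455839084436071414497280))) (mul (land (lor U o) (nat_lit 2722217397032252905880190976965696552960)) (nat_lit 11692057700137620406878237622690113180259560980480)))
      (add (add I (mul (land U (nat_lit 576451956218789760)) (nat_lit 55214181398907847413863134791971708580880385329287060348976672884654080))) (mul (land (lor U o) (nat_lit 2722217397032252905880190976965696552960)) (nat_lit 260741599617287038615700573062295606103682006744275706347821331954882146582240646160638279680)))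
      κ (shiftRight s (nat_lit 76)) (xor N (land N (shiftRight (n1 H r) (sub (nat_lit 4080) (land c (nat_lit 4080)))))) V)
    (beq (land (sub (sub X1 (zf H M1 (nat_lit 4163103140571917502727221503699418349568) r)) (e1 DT x c)) (add G1 (nat_lit 34084860461056))) G1)) (land (shiftRight s (nat_lit 59)) (nat_lit 131071)))
    (beq (land (sub (sub X0 (d0 DT x c)) (add (add (mul (land U (nat_lit 39613476794222361482193010560)) (nat_lit 68351585150463769109460267881736432163580189460604882716279233998947259762456620377534820912201728))
      (mul (land U (nat_lit 2722217396992639429086545067439722332160)) (nat_lit 260740604974608494222489425208039978651352651445788889756314216609753645944429856786860736512))) (nat_lit 2801973672888163648873723108057205964800))) (add G0 (nat_lit 34084860461056))) G0)) (ux o s)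

def a7 : BR := fun _ _ _ G0 _ _ DT _ _ X0 _ x c _ κ s N V =>
  Bool.rec false (κ (shiftRight s (nat_lit 7)) N V)
    (beq (land (sub (sub X0 (d0 DT x c)) (nat_lit 2801973672888163648873723108057205964800)) (add G0 (nat_lit 34084860461056))) G0)

def tw (nx : MV) (w c Y0 Y1 : Nat) (κ : KT3) : KT3 := nx w c Y0 Y1 (nx w c Y0 Y1 κ)

def a8 : BR := fun _ _ o G0 _ _ DT I nx X0 _ x c w κ s N V =>
  Nat.rec false (fun U _ => Bool.rec false (tw nx w c
      (add (add I (mul (land U (nat_lit 576451956218789760)) (nat_lit 1231317390722493023050436523690298797121412248926023921711381851619923411212114921682028062455839084436071414497280))) (mul (land (lor U o) (nat_lit 2722217397032252905880190976965696552960)) (nat_lit 11692057700137620406878237622690113180259560980480)))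
      (add (add I (mul (land U (nat_lit 576451956218789760)) (nat_lit 55214181398907847413863134791971708580880385329287060348976672884654080))) (mul (land (lor U o) (nat_lit 2722217397032252905880190976965696552960)) (nat_lit 260741599617287038615700573062295606103682006744275706347821331954882146582240646160638279680)))
      κ (shiftRight s (nat_lit 59)) N V)
    (beq (land (sub (sub X0 (d0 DT x c)) (add (add (mul (land U (nat_lit 39613476794222361482193010560)) (nat_lit 68351585150463769109460267881736432163580189460604882716279233998947259762456620377534820912201728))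
      (mul (land U (nat_lit 2722217396992639429086545067439722332160)) (nat_lit 260740604974608494222489425208039978651352651445788889756314216609753645944429856786860736512))) (nat_lit 2801973672888163648873723108057205964800))) (add G0 (nat_lit 34084860461056))) G0)) (ux o s)

def a9 : BR := fun _ _ o G0 _ _ DT I nx X0 _ x c w κ s N V =>
  Nat.rec false (fun U _ => Bool.rec false (nx w c
      (add (add I (mul (land U (nat_lit 576451956218789760)) (nat_lit 1231317390722493023050436523690298797121412248926023921711381851619923411212114921682028062455839084436071414497280))) (mul (land (lor U o) (nat_lit 2722217397032252905880190976965696552960)) (nat_lit 11692057700137620406878237622690113180259560980480)))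
      (add (add I (mul (land U (nat_lit 576451956218789760)) (nat_lit 55214181398907847413863134791971708580880385329287060348976672884654080))) (mul (land (lor U o) (nat_lit 2722217397032252905880190976965696552960)) (nat_lit 260741599617287038615700573062295606103682006744275706347821331954882146582240646160638279680)))
      κ (shiftRight s (nat_lit 59)) N V)
    (beq (land (sub (sub X0 (d0 DT x c)) (add (add (mul (land U (nat_lit 39613476794222361482193010560)) (nat_lit 68351585150463769109460267881736432163580189460604882716279233998947259762456620377534820912201728))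
      (mul (land U (nat_lit 2722217396992639429086545067439722332160)) (nat_lit 260740604974608494222489425208039978651352651445788889756314216609753645944429856786860736512))) (nat_lit 2801973672888163648873723108057205964800))) (add G0 (nat_lit 34084860461056))) G0)) (ux o s)

def ds (M0 M1 o : Nat) (H DT : Tr) (I : Nat) (nx : MV) (X0 X1 x c w : Nat) (κ : KT3) (s N V G0 G1 : Nat) : Bool :=
  Bool.rec (motive := fun _ => BR) (Bool.rec (Bool.rec a9 a8 (ble (land s (nat_lit 120)) (nat_lit 64))) (Bool.rec a7 (Bool.rec a6 a5 (ble (land s (nat_lit 120)) (nat_lit 40))) (ble (land s (nat_lit 120)) (nat_lit 48))) (ble (land s (nat_lit 120)) (nat_lit 56))) (Bool.rec (Bool.rec a4 a3 (ble (land s (nat_lit 120)) (nat_lit 24))) (Bool.rec a2 (Bool.rec a1 a0 (ble (land s (nat_lit 120)) (nat_lit 0))) (ble (land s (nat_lit 120)) (nat_lit 8))) (ble (land s (nat_lit 120)) (nat_lit 16))) (ble (land s (nat_lit 120)) (nat_lit 32)) M0 M1 o G0 G1 H DT I nx X0 X1 x c w κ s N V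

def mh (H DT : Tr) (I : Nat) (nx : MV) (X0 X1 x c w : Nat) (κ : KT3) (s N V : Nat) : Bool :=
  Bool.rec false (ds (nat_lit 17179672575) (nat_lit 81128709954854851177713185587200) (nat_lit 2722217397032252905880190976965696552960) H DT I nx X0 X1 x c (nat_lit 0) κ (shiftRight s (nat_lit 4)) N V (nat_lit 1419612298781011615649678952475016771720260989886843619185417813866810540483857042694292115230126086047217080772174804169130042720256) (nat_lit 1419612298781011615649678952475016771720260989886843619185417813866810540483857042694292115230126086047217080772174804169130042720256))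
    (beq w (nat_lit 0))

def mg (C v : Nat) (H DT : Tr) (I : Nat) (nx : MV) (X0 X1 x c w : Nat) (κ : KT3) (s N V : Nat) : Bool :=
  gs C v w x c (land (shiftRight s (nat_lit 7)) (nat_lit 7)) (Nat.rec (motive := fun _ => Nat → Nat → Bool)
    (ds (nat_lit 17179672575) (nat_lit 81128709954854851177713185587200) (nat_lit 2722217397032252905880190976965696552960) H DT I nx X0 X1 x c (nat_lit 0) κ (shiftRight s (nat_lit 7)) N V)
    (fun _ _ => ds (nat_lit 81128709954854851177730365259775) (nat_lit 81128709954854851177730365259775) (nat_lit 0) H DT I nx X0 X1 x c w κ (shiftRight s (nat_lit 7)) N V) w)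

def mq (H DT : Tr) (_ : Nat) (_ : MV) (X0 X1 x c _ : Nat) (κ : KT3) (s N V : Nat) : Bool :=
  fb (mul (land c (nat_lit 15)) (nat_lit 1099511627776)) fun J => bk1 H (cq (hz H) DT (sub X0 (nat_lit 34084860461056)) (sub X1 (nat_lit 34084860461056)) (ky x c) (nat_lit 1419612298781011615649678952475016771720260989886843619185417813866810540483857042694292115230126086047217080772174804169130042720256) (nat_lit 1419612298781011615649678952475016771720260989886843619185417813866810540483857042694292115230126086047217080772174804169130042720256)) J J J
    (sf c) c ko0 ko0 kf κ (nat_lit 2) (shiftRight s (nat_lit 7)) N V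

/-- one robot moves to another anchor -/
def mv (H DT : Tr) (I C A : Nat) (nx : MV) (v x X0 X1 : Nat) (κ : KT3) (s N V : Nat) : Bool :=
  Nat.rec
    (Nat.rec false (fun c _ => Bool.rec (motive := fun _ => Tr → Tr → Nat → MV → Nat → Nat → Nat → Nat → Nat → KT3 → KT3) (Bool.rec (Bool.rec (Bool.rec (Bool.rec mq (mg C v) (ble (land s (nat_lit 120)) (nat_lit 88))) mh (ble (land s (nat_lit 120)) (nat_lit 80))) (Bool.rec (a9 (nat_lit 81128709954854851177730365259775) (nat_lit 81128709954854851177730365259775) (nat_lit 0) (nat_lit 1419612298781011615649678952475016771720260989886843619185417813866810540483857042694292115230126086047217080772174804169130042720256) (nat_lit 1419612298781011615649678952475016771720260989886843619185417813866810540483857042694292115230126086047217080772174804169130042720256)) (a8 (nat_lit 81128709954854851177730365259775) (nat_lit 81128709954854851177730365259775) (nat_lit 0) (nat_lit 1419612298781011615649678952475016771720260989886843619185417813866810540483857042694292115230126086047217080772174804169130042720256) (nat_lit 1419612298781011615649678952475016771720260989886843619185417813866810540483857042694292115230126086047217080772174804169130042720256))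 (ble (land s (nat_lit 120)) (nat_lit 64))) (ble (land s (nat_lit 120)) (nat_lit 72))) (Bool.rec (a7 (nat_lit 81128709954854851177730365259775) (nat_lit 81128709954854851177730365259775) (nat_lit 0) (nat_lit 1419612298781011615649678952475016771720260989886843619185417813866810540483857042694292115230126086047217080772174804169130042720256) (nat_lit 1419612298781011615649678952475016771720260989886843619185417813866810540483857042694292115230126086047217080772174804169130042720256)) (Bool.rec (a6 (nat_lit 81128709954854851177730365259775) (nat_lit 81128709954854851177730365259775) (nat_lit 0) (nat_lit 1419612298781011615649678952475016771720260989886843619185417813866810540483857042694292115230126086047217080772174804169130042720256) (nat_lit 1419612298781011615649678952475016771720260989886843619185417813866810540483857042694292115230126086047217080772174804169130042720256)) (a5 (nat_lit 81128709954854851177730365259775) (nat_lit 81128709954854851177730365259775) (nat_lit 0) (nat_lit 1419612298781011615649678952475016771720260989886843619185417813866810540483857042694292115230126086047217080772174804169130042720256) (nat_lit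 1419612298781011615649678952475016771720260989886843619185417813866810540483857042694292115230126086047217080772174804169130042720256)) (ble (land s (nat_lit 120)) (nat_lit 40))) (ble (land s (nat_lit 120)) (nat_lit 48))) (ble (land s (nat_lit 120)) (nat_lit 56))) (Bool.rec (Bool.rec (a4 (nat_lit 81128709954854851177730365259775) (nat_lit 81128709954854851177730365259775) (nat_lit 0) (nat_lit 1419612298781011615649678952475016771720260989886843619185417813866810540483857042694292115230126086047217080772174804169130042720256) (nat_lit 1419612298781011615649678952475016771720260989886843619185417813866810540483857042694292115230126086047217080772174804169130042720256)) (a3 (nat_lit 81128709954854851177730365259775) (nat_lit 81128709954854851177730365259775) (nat_lit 0) (nat_lit 1419612298781011615649678952475016771720260989886843619185417813866810540483857042694292115230126086047217080772174804169130042720256) (nat_lit 1419612298781011615649678952475016771720260989886843619185417813866810540483857042694292115230126086047217080772174804169130042720256)) (ble (land s (nat_lit 120)) (nat_lit 24))) (Bool.rec (a2 (nat_lit 81128709954854851177730365259775)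 (nat_lit 81128709954854851177730365259775) (nat_lit 0) (nat_lit 1419612298781011615649678952475016771720260989886843619185417813866810540483857042694292115230126086047217080772174804169130042720256) (nat_lit 1419612298781011615649678952475016771720260989886843619185417813866810540483857042694292115230126086047217080772174804169130042720256)) (Bool.rec (a1 (nat_lit 81128709954854851177730365259775) (nat_lit 81128709954854851177730365259775) (nat_lit 0) (nat_lit 1419612298781011615649678952475016771720260989886843619185417813866810540483857042694292115230126086047217080772174804169130042720256) (nat_lit 1419612298781011615649678952475016771720260989886843619185417813866810540483857042694292115230126086047217080772174804169130042720256)) (a0 (nat_lit 81128709954854851177730365259775) (nat_lit 81128709954854851177730365259775) (nat_lit 0) (nat_lit 1419612298781011615649678952475016771720260989886843619185417813866810540483857042694292115230126086047217080772174804169130042720256) (nat_lit 1419612298781011615649678952475016771720260989886843619185417813866810540483857042694292115230126086047217080772174804169130042720256))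 (ble (land s (nat_lit 120)) (nat_lit 0))) (ble (land s (nat_lit 120)) (nat_lit 8))) (ble (land s (nat_lit 120)) (nat_lit 16))) (ble (land s (nat_lit 120)) (nat_lit 32)) H DT I nx X0 X1 x c (land s (nat_lit 7)) κ s N (add V (shiftLeft (nat_lit 1) (land s (nat_lit 7)))))
      (add (land (shiftRight A (mul (land s (nat_lit 7)) (nat_lit 12))) (nat_lit 4095)) (nat_lit 1)))
    (fun _ _ => false) (land (shiftRight V (land s (nat_lit 7))) (nat_lit 1))

def mz : MV := fun _ _ _ _ _ _ _ _ => false

def m3 (P : MV → MV) : MV := P (P (P mz))

def kz (_ N V : Nat) : Bool := Bool.rec false (beq V (nat_lit 255)) (beq N (nat_lit 0))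

/-- arguments: `H Q c T0 T1` -/
abbrev RT := Tr → (KT3 → KT3) → Nat → Nat → Nat → KT3

def t0 : RT := fun _ Q _ _ _ s N V => Q (Q kz) (shiftRight s (nat_lit 9)) N V

def t1 : RT := fun H Q c T0 _ s N V =>
  Nat.rec false (fun r _ => Bool.rec false (Q kz (shiftRight s (nat_lit 26)) (xor N (land N (shiftRight (n0 H r) (sub (nat_lit 4080) (land c (nat_lit 4080)))))) V)
    (beq (land (sub T0 (yf H (nat_lit 2801973672888163648873723073972345503744) r)) (nat_lit 2854496066309122862835527115449378651557199872)) (nat_lit 2854496066309122862835527115449344566696738816))) (land (shiftRight s (nat_lit 9)) (nat_lit 131071))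

def t2 : RT := fun H Q c _ T1 s N V =>
  Nat.rec false (fun r _ => Bool.rec false (Q kz (shiftRight s (nat_lit 26)) (xor N (land N (shiftRight (n1 H r) (sub (nat_lit 4080) (land c (nat_lit 4080)))))) V)
    (beq (land (sub T1 (yf H (nat_lit 4163103140571917502727221503699418349568) r)) (nat_lit 2854496066309122862835527115449378651557199872)) (nat_lit 2854496066309122862835527115449344566696738816))) (land (shiftRight s (nat_lit 9)) (nat_lit 131071))

def t3 : RT := fun H Q _ _ T1 s N V =>
  Nat.rec false (fun r _ => Bool.rec false (Q kz (shiftRight s (nat_lit 26)) (xor N (land N (shiftRight (n0 H r) (nat_lit 2176)))) V)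
    (beq (land (sub T1 (yf H (nat_lit 2801973672888163648873723073972345503744) r)) (nat_lit 2854496066309122862835527115449378651557199872)) (nat_lit 2854496066309122862835527115449344566696738816))) (land (shiftRight s (nat_lit 9)) (nat_lit 131071))

def t4 : RT := fun H Q _ T0 _ s N V =>
  Nat.rec false (fun r _ => Bool.rec false (Q kz (shiftRight s (nat_lit 26)) (xor N (land N (shiftRight (n1 H r) (nat_lit 2176)))) V)
    (beq (land (sub T0 (yf H (nat_lit 4163103140571917502727221503699418349568) r)) (nat_lit 2854496066309122862835527115449378651557199872)) (nat_lit 2854496066309122862835527115449344566696738816))) (land (shiftRight s (nat_lit 9)) (nat_lit 131071))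

def t6 (Q : KT3 → KT3) (H : Tr) (c T0 T1 s N V : Nat) : Bool :=
  Bool.rec (Q kz (shiftRight s (nat_lit 9)) N V) (Bool.rec (motive := fun _ => RT)
    (Bool.rec (Bool.rec t4 t3 (ble (land s (nat_lit 448)) (nat_lit 192))) (Bool.rec t2 t1 (ble (land s (nat_lit 448)) (nat_lit 64))) (ble (land s (nat_lit 448)) (nat_lit 128)))
    t0 (beq (land s (nat_lit 448)) (nat_lit 0)) H (fun k => k) c T0 T1 s N V) (ble (land s (nat_lit 448)) (nat_lit 256))

/-- a part of a row -/
def bx (y : Nat) : Nat :=
  shiftLeft (land (sub (shiftLeft (nat_lit 1) (mul (land (shiftRight y (nat_lit 12)) (nat_lit 63)) (nat_lit 16))) (nat_lit 1)) ON) (land y (nat_lit 4095))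

def bp (XT y z : Nat) : Bool :=
  Bool.rec false (ble (add (add (land (shiftRight y (nat_lit 4)) (nat_lit 255)) (land (shiftRight y (nat_lit 12)) (nat_lit 63))) (nat_lit 1))
      (add (land (shiftRight z (nat_lit 4)) (nat_lit 255)) (xe XT (add (mul (land y (nat_lit 15)) (nat_lit 32)) (nat_lit 1)) (land z (nat_lit 15)))))
    (ble (add (add (land (shiftRight z (nat_lit 4)) (nat_lit 255)) (land (shiftRight z (nat_lit 12)) (nat_lit 63))) (nat_lit 1))
      (add (land (shiftRight y (nat_lit 4)) (nat_lit 255)) (xe XT (add (mul (land y (nat_lit 15)) (nat_lit 32)) (nat_lit 1)) (land z (nat_lit 15)))))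

/-- any two cells of four parts of rows exclude each other -/
def ob (XT y : Nat) : Bool :=
  al (nat_lit 4) fun a => al (add a (nat_lit 1)) fun b => bp XT (shiftRight y (mul a (nat_lit 18))) (shiftRight y (mul b (nat_lit 18)))

def om (y : Nat) : Nat := lor (lor (bx y) (bx (shiftRight y (nat_lit 18)))) (lor (bx (shiftRight y (nat_lit 36))) (bx (shiftRight y (nat_lit 54))))

def su (n : Nat → Nat) (H : Tr) (a c T : Nat) (ih : Nat → KT3) (F s N V : Nat) : Bool :=
  Nat.rec false (fun r _ => Bool.rec false (Bool.rec false
    (ih (sub F (add (land (shiftRight s (nat_lit 3)) (nat_lit 1)) (nat_lit 1))) (shiftRight s (nat_lit 21)) (xor N (land N (shiftRight (n r) (sub (nat_lit 4080) (land c (nat_lit 4080)))))) V)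
    (beq (land (sub (add T (mul (land s (nat_lit 8)) (nat_lit 8589934592))) (yf H a r)) (nat_lit 2854496066309122862835527115449378651557199872)) (nat_lit 2854496066309122862835527115449344566696738816))) (ble (add (land (shiftRight s (nat_lit 3)) (nat_lit 1)) (nat_lit 1)) F))
    (land (shiftRight s (nat_lit 4)) (nat_lit 131071))

def s2 (XT : Nat) (Q : KT3 → KT3) (Fe : OP) (ih : Nat → KT3) (F s N V : Nat) : Bool :=
  Nat.rec false (fun K _ => Bool.rec
    (Bool.rec (Fe ih F s N V) (fb (land (shiftRight s (nat_lit 3)) (nat_lit 4722366482869645213695)) fun y => Bool.rec false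
      (ih K (shiftRight s (nat_lit 75)) (dl N (lor (om y) (shiftRight (om y) (nat_lit 1920)))) V) (ob XT y)) (ble (land s (nat_lit 7)) (nat_lit 5)))
    (Bool.rec (vis V (land (shiftRight s (nat_lit 3)) (nat_lit 7)) (ih K (shiftRight s (nat_lit 6)) N)) (Q (ih K) (shiftRight s (nat_lit 3)) N V)
      (ble (land s (nat_lit 7)) (nat_lit 3))) (ble (land s (nat_lit 7)) (nat_lit 4))) F

/-- the robots at the end of a short edge -/
def sb (H : Tr) (XT c T : Nat) (Q : KT3 → KT3) (Fe : OP) (κ : KT3) : Nat → KT3 :=
  Nat.rec (motive := fun _ => Nat → KT3) (fun _ _ _ _ => false)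
    (fun _ ih F s N V => Nat.rec (κ s N V) (fun m _ => Bool.rec (s2 XT Q Fe ih F s N V)
      (Bool.rec (su (n1 H) H (nat_lit 4163103140571917502727221503699418349568) c T ih F s N V) (su (n0 H) H (nat_lit 2801973672888163648873723073972345503744) c T ih F s N V) (beq m (nat_lit 0))) (ble m (nat_lit 1)))
      (land s (nat_lit 7))) (nat_lit 3)

def tj (f : Nat → Nat) (x : Nat) : Nat := Nat.rec (nat_lit 0) (fun j _ => add (f j) (mul j (nat_lit 1099511627776))) (add (land x (nat_lit 15)) (nat_lit 1))

def xj (f : Nat → Nat) (x : Nat) : Nat := Nat.rec (nat_lit 0) (fun j _ => add (f j) (nat_lit 34084860461056)) (add (land x (nat_lit 15)) (nat_lit 1))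

def t5 (R i XT S s4 s5 C A : Nat) (P : MV → MV) : RT := fun H Q x T0 T1 s N V =>
  Bool.rec false (vis V (nat_lit 1) fun V' => fb (land (shiftRight A (nat_lit 12)) (nat_lit 4095)) fun c =>
    sb H XT c (add (rp i (tw2 R) (tw2 R)) (mul (land c (nat_lit 15)) (nat_lit 1099511627776)))
      (P (m3 P) (nat_lit 1) c (add (rx i (tw2 R) (tw2 R)) (nat_lit 34084860461056)) (add (rx i (tw2 R) (tw2 R)) (nat_lit 34084860461056)))
      (fe XT S s4 s5 A) (t6 Q H x T0 T1) (nat_lit 2) (shiftRight s (nat_lit 9)) N V') (beq (land (shiftRight C (nat_lit 3)) (nat_lit 1)) (nat_lit 1))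

def ru (H : Tr) (R i x : Nat) (P : MV → MV) (W : RT) (s N V : Nat) : Bool :=
  Bool.rec (motive := fun _ => RT)
    (Bool.rec (Bool.rec (Bool.rec W t4 (ble (land s (nat_lit 448)) (nat_lit 256))) t3 (ble (land s (nat_lit 448)) (nat_lit 192)))
      (Bool.rec t2 t1 (ble (land s (nat_lit 448)) (nat_lit 64))) (ble (land s (nat_lit 448)) (nat_lit 128)))
    t0 (beq (land s (nat_lit 448)) (nat_lit 0)) H (P (m3 P) (nat_lit 0) x (xj (r2 R i) x) (xj (r3 R i) x)) x (tj (r0 R i) x) (tj (r1 R i) x) s N V

def rv (H : Tr) (R i A : Nat) (P : MV → MV) (v s N V : Nat) : Bool :=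
  Nat.rec false (fun x _ => Bool.rec (motive := fun _ => RT) (Bool.rec t2 t1 (ble (land s (nat_lit 448)) (nat_lit 64)))
    t0 (beq (land s (nat_lit 448)) (nat_lit 0)) H (P (m3 P) v x (xj (rb R i) x) (xj (rb R i) x)) x (tj (ra R i) x) (tj (ra R i) x) s N V)
    (add (land (shiftRight A (mul v (nat_lit 12))) (nat_lit 4095)) (nat_lit 1))

def lg2 (H : Tr) (R i x : Nat) (P : MV → MV) (W : RT) (g : Nat → Nat → Nat → Nat → Bool) (n A s N : Nat) : Bool :=
  Bool.rec (vis (sub (nat_lit 256) (shiftLeft (nat_lit 1) n)) (land s (nat_lit 7)) fun V => tu A (land (shiftRight s (nat_lit 3)) (nat_lit 7)) V N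
    (Nat.rec (motive := fun _ => Nat → Nat → Bool) (ru H R i x P W s) (fun _ _ => rv H R i A P (land s (nat_lit 7)) s) (land s (nat_lit 7))))
    (g n A (shiftRight s (nat_lit 6)) N) (beq (land s (nat_lit 63)) (nat_lit 63))

/-- a wake-up tree for all points -/
def lf (H : Tr) (R i : Nat) (P : Nat → MV → MV) (W : Nat → (MV → MV) → RT) (g : Nat → Nat → Nat → Nat → Bool)
    (x n A s N : Nat) : Bool :=
  Nat.rec (ru H R i x (P A) (W A (P A)) s N (sub (nat_lit 257) (shiftLeft (nat_lit 1) n)))
    (fun t _ => Bool.rec (lg2 H R i x (P A) (W A (P A)) g n A s N)
      (rv H R i A (P A) (add t (nat_lit 1)) s N (add (sub (nat_lit 256) (shiftLeft (nat_lit 1) n)) (shiftLeft (nat_lit 2) t))) (ble (add t (nat_lit 2)) n)) (land s (nat_lit 63))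

def zs (XT c : Nat) : Nat :=
  Nat.rec (nat_lit 0) (fun j _ => shiftRight (zp XT j) (sub (nat_lit 4080) (land c (nat_lit 4080)))) (add (land c (nat_lit 15)) (nat_lit 1))

def l2 (MT : Tr) (XT S s4 s5 : Nat) (g t : Nat → Nat → Nat → Nat → Bool) (n n1 A : Nat)
    (ih : Nat → Nat → Bool) (s M : Nat) : Bool :=
  Nat.rec (g n A (shiftRight s (nat_lit 2)) M) (fun _ _ => Bool.rec
    (Nat.rec false (fun c _ => Bool.rec false
      (ih (shiftRight s (land (shiftRight s (nat_lit 15)) (nat_lit 4095))) (xor M (shiftLeft (nat_lit 1) c)))
      (ent XT S s4 s5 A n c (shiftRight s (nat_lit 27)) M (t n1))) (land (shiftRight s (nat_lit 3)) (nat_lit 4095)))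
    (ih (pt MT (shiftRight s (nat_lit 3))) M) (beq (land s (nat_lit 4)) (nat_lit 0))) (land s (nat_lit 3))

def ls (MT : Tr) (XT S s4 s5 : Nat) (g t : Nat → Nat → Nat → Nat → Bool) (n n1 k A : Nat) : Nat → Nat → Bool :=
  Nat.rec (motive := fun _ => Nat → Nat → Bool) (fun _ _ => false)
    (fun _ ih s M => Bool.rec (l2 MT XT S s4 s5 g t n n1 A ih s M)
      (Nat.rec false (fun c _ => Bool.rec false
        (ih (shiftRight s (land (shiftRight s (nat_lit 14)) (nat_lit 1023))) (xor M (shiftLeft (nat_lit 1) c)))
        (g n1 (add A (shiftLeft c k)) (shiftRight s (nat_lit 24)) (Bool.rec (xor M (land M (zs XT c))) M (beq (land s (nat_lit 2)) (nat_lit 0)))))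
        (land (shiftRight s (nat_lit 2)) (nat_lit 4095)))
      (beq (land s (nat_lit 1)) (nat_lit 1))) (nat_lit 9999)

/-- a tree of case distinctions -/
def tf (MT : Tr) (XT S s4 s5 : Nat) (g : Nat → Nat → Nat → Nat → Bool) : Nat → Nat → Nat → Nat → Bool :=
  Nat.rec (motive := fun _ => Nat → Nat → Nat → Nat → Bool) (fun _ _ _ _ => false)
    (fun _ t n A s N => Nat.rec (Bool.rec false (g n A (shiftRight s (nat_lit 2)) N) (ble n (nat_lit 7)))
      (fun _ _ => Bool.rec false (fb (add n (nat_lit 1)) fun n1 => fb (mul n (nat_lit 12)) fun k => ls MT XT S s4 s5 g t n n1 k A s N)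
        (ble n (nat_lit 6))) (land s (nat_lit 3))) (nat_lit 9)

def tt (H DT MT : Tr) (R i I XT S s4 s5 C n A s N : Nat) : Bool :=
  Nat.rec false (fun x _ => tf MT XT S s4 s5 (lf H R i (mv H DT I C) (t5 R i XT S s4 s5 C) (lfT H DT R i XT S s4 s5 C) x) n A s N)
    (add (land A (nat_lit 4095)) (nat_lit 1))

def rn1 (MT : Tr) (T : Nat → Nat → Nat → Nat → Nat → Bool) (m : Nat) (ih : ST) (XT S XA SA jn s4 s5 tg D s o : Nat) : Bool :=
  Nat.rec
    (fb (bt s (nat_lit 4) (nat_lit 15)) fun a => fb (bt s (nat_lit 8) (nat_lit 15)) fun b =>
      an (xup MT T XT S jn m XA a b (shiftRight s (nat_lit 12)) (xe XA (add (mul a (nat_lit 32)) (nat_lit 1)) b))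
        (ih XT S (xi XA a b) SA jn s4 s5 tg D (shiftRight s (nat_lit 42))))
    (fun o1 _ => Nat.rec
      (fb (bt s (nat_lit 4) (nat_lit 15)) fun a => fb (bt s (nat_lit 8) (nat_lit 15)) fun b => fb (bt s (nat_lit 12) (nat_lit 15)) fun c =>
        an (sup MT T XT S s4 s5 jn m a b c (shiftRight s (nat_lit 16)) (sd SA a b c))
          (ih XT S XA (add SA (shiftLeft (nat_lit 1) (mul (add (add (mul a (nat_lit 256)) (mul b (nat_lit 16))) c) (nat_lit 8)))) jn s4 s5 tg D
            (shiftRight s (nat_lit 196))))
      (fun o2 _ => Nat.rec
        (fb (bt s (nat_lit 4) (nat_lit 15)) fun a => fb (bt s (nat_lit 8) (nat_lit 15)) fun b =>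
          an (prt MT T XT S s4 s5 jn m tg a b (bt s (nat_lit 12) (nat_lit 63)) (bt s (nat_lit 18) (nat_lit 63))
              (pt MT (shiftRight s (nat_lit 24))))
            (ih XT S XA SA jn s4 s5 tg (lor D (shiftLeft (iv (bt s (nat_lit 12) (nat_lit 63)) (bt s (nat_lit 18) (nat_lit 63)))
              (mul (add (mul a (nat_lit 16)) b) (nat_lit 64)))) (shiftRight s (nat_lit 54))))
        (fun o3 _ => Nat.rec
          (an (an (lt jn m) (T (nat_lit 2) (nat_lit 1) (Q.a0 jn) (pt MT (shiftRight s (nat_lit 4))) (Q.a1 XT jn m jn)))
            (fb (cn (beq (add jn (nat_lit 1)) m) (add m (nat_lit 1)) (add jn (nat_lit 1))) fun x =>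
              ih XT S XA SA x s4 s5 tg D (shiftRight s (nat_lit 34))))
          (fun o4 _ => rn2 MT m ih XT S XA SA jn s4 s5 tg D s o4) o3) o2) o1) o

def rn0 (H DT MT : Tr) (R m i I X' S' jn' s4' s5' tg' D' : Nat) : ST :=
  Nat.rec (motive := fun _ => ST) (fun _ _ _ _ _ _ _ _ _ _ => false)
    (fun _ ih XT S XA SA jn s4 s5 tg D s => Nat.rec
      (an (an (beq XA X') (beq SA S')) (an (an (beq jn jn') (beq s4 s4'))
        (an (beq s5 s5') (an (beq tg tg') (beq D D')))))
      (fun o _ => rn1 MT (tt H DT MT R i I XT S s4 s5) m ih XT S XA SA jn s4 s5 tg D s o) (land s (nat_lit 15))) (nat_lit 9999)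

/-- a sequence of improvements of the invariants -/
def rnd (H DT MT : Tr) (R m i X' S' jn' s4' s5' tg' D' XT S XA SA jn s4 s5 tg D s : Nat) : Bool :=
  fb (add (mul i (nat_lit 10889035741470030830827987437816582766592)) (nat_lit 1419612298781011615649678952475016771720260989886843619185417813866810540483857042694292115229014230638747742532099027116372690731008)) fun I => rn0 H DT MT R m i I X' S' jn' s4' s5' tg' D' XT S XA SA jn s4 s5 tg D s

/-- a wake-up forest for one or two robots -/
def lw (H : Tr) (x T0 T1 X0 X1 K : Nat) (P : Nat → MV → MV) (o : Nat → Nat → Nat → Nat → Bool) (n A s N : Nat) : Bool :=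
  Bool.rec (Nat.rec (motive := fun _ => Nat → Nat → Bool)
      (Bool.rec (motive := fun _ => Nat → Nat → Bool)
        (Bool.rec (motive := fun _ => RT) t2 t1 (ble (land s (nat_lit 448)) (nat_lit 64)) H (fun k => k) x T0 T1 s)
        (P A (m3 (P A)) (nat_lit 0) x X0 X1 kz (shiftRight s (nat_lit 9))) (beq (land s (nat_lit 448)) (nat_lit 0)))
      (fun _ _ => Bool.rec (motive := fun _ => RT) t2 t1 (ble (land s (nat_lit 448)) (nat_lit 64)) H (P A (m3 (P A)) (nat_lit 0) x X0 X1) x T0 T1 s)
      K N (sub (nat_lit 257) (shiftLeft (nat_lit 1) n)))
    (o n A (shiftRight s (nat_lit 6)) N) (beq (land s (nat_lit 63)) (nat_lit 63))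

def zq (XT c : Nat) : Nat := Nat.rec (nat_lit 0) (fun j _ => zp XT j) (add (land c (nat_lit 15)) (nat_lit 1))

def zw (XT S x c : Nat) : Nat := lor (zq XT c) (Nat.rec (nat_lit 0) (fun k _ => w3 S k) (add (k3 x c) (nat_lit 1)))

/-- arguments: `H DT XT S X0 X1 x M c r` -/
abbrev GS := Tr → Tr → Nat → Nat → Nat → Nat → Nat → Nat → Nat → Nat → Bool

abbrev GD := Tr → Tr → Nat → Nat → Nat → Nat → Nat → Nat → Nat → Nat → Nat → Bool

def c0 : GD := fun H DT _ _ X0 X1 x M c r q =>
  Bool.rec false (Bool.rec false (beq (land M (shiftRight (lor (n0 H r) (n1 H q)) (sub (nat_lit 4080) (land c (nat_lit 4080))))) M)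
    (beq (land (sub (sub X1 (zf H (nat_lit 81128709954854851177730365259775) (nat_lit 4163103140571917502727221503699418349568) q)) (e1 DT x c)) (nat_lit 1419612298781011615649678952475016771720260989886843619185417813866810540483857042694292115230126086047217080772174804203214903181312)) (nat_lit 1419612298781011615649678952475016771720260989886843619185417813866810540483857042694292115230126086047217080772174804169130042720256)))
    (beq (land (sub (sub X0 (zf H (nat_lit 81128709954854851177730365259775) (nat_lit 2801973672888163648873723073972345503744) r)) (e0 DT x c)) (nat_lit 1419612298781011615649678952475016771720260989886843619185417813866810540483857042694292115230126086047217080772174804203214903181312)) (nat_lit 1419612298781011615649678952475016771720260989886843619185417813866810540483857042694292115230126086047217080772174804169130042720256))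

def c1 : GD := fun H DT _ _ X0 _ x M c r q =>
  Bool.rec false (Bool.rec false (beq (land M (shiftRight (lor (n0 H r) (n0 H q)) (sub (nat_lit 4080) (land c (nat_lit 4080))))) M)
    (beq (land (sub (sub X0 (zf H (nat_lit 81128709954854851177730365259775) (nat_lit 2801973672888163648873723073972345503744) q)) (e0 DT x c)) (nat_lit 1419612298781011615649678952475016771720260989886843619185417813866810540483857042694292115230126086047217080772174804203214903181312)) (nat_lit 1419612298781011615649678952475016771720260989886843619185417813866810540483857042694292115230126086047217080772174804169130042720256)))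
    (beq (land (sub (sub X0 (zf H (nat_lit 81128709954854851177730365259775) (nat_lit 2801973672888163648873723073972345503744) r)) (e0 DT x c)) (nat_lit 1419612298781011615649678952475016771720260989886843619185417813866810540483857042694292115230126086047217080772174804203214903181312)) (nat_lit 1419612298781011615649678952475016771720260989886843619185417813866810540483857042694292115230126086047217080772174804169130042720256))

def c2 : GD := fun H DT _ _ _ X1 x M c r q =>
  Bool.rec false (Bool.rec false (beq (land M (shiftRight (lor (n1 H r) (n1 H q)) (sub (nat_lit 4080) (land c (nat_lit 4080))))) M)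
    (beq (land (sub (sub X1 (zf H (nat_lit 81128709954854851177730365259775) (nat_lit 4163103140571917502727221503699418349568) q)) (e1 DT x c)) (nat_lit 1419612298781011615649678952475016771720260989886843619185417813866810540483857042694292115230126086047217080772174804203214903181312)) (nat_lit 1419612298781011615649678952475016771720260989886843619185417813866810540483857042694292115230126086047217080772174804169130042720256)))
    (beq (land (sub (sub X1 (zf H (nat_lit 81128709954854851177730365259775) (nat_lit 4163103140571917502727221503699418349568) r)) (e1 DT x c)) (nat_lit 1419612298781011615649678952475016771720260989886843619185417813866810540483857042694292115230126086047217080772174804203214903181312)) (nat_lit 1419612298781011615649678952475016771720260989886843619185417813866810540483857042694292115230126086047217080772174804169130042720256))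

def c3 : GD := fun H DT XT _ X0 X1 x M c r q =>
  Bool.rec false (Bool.rec false (beq (land M (shiftRight (lor (lor (n0 H r) (n1 H q)) (zq XT c)) (sub (nat_lit 4080) (land c (nat_lit 4080))))) M)
    (beq (land (sub (sub X1 (zf H (nat_lit 81128709954854851177730365259775) (nat_lit 4163103140571917502727221503699418349568) q)) (e1 DT x c)) (nat_lit 1419612298781011615649678952475016771720260989886843619185417813866810540483857042694292115230126086047217080772174804203214903181312)) (nat_lit 1419612298781011615649678952475016771720260989886843619185417813866810540483857042694292115230126086047217080772174804169130042720256)))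
    (beq (land (sub (sub X0 (zf H (nat_lit 81128709954854851177730365259775) (nat_lit 2801973672888163648873723073972345503744) r)) (e0 DT x c)) (nat_lit 1419612298781011615649678952475016771720260989886843619185417813866810540483857042694292115230126086047217080772174804203214903181312)) (nat_lit 1419612298781011615649678952475016771720260989886843619185417813866810540483857042694292115230126086047217080772174804169130042720256))

def c4 : GD := fun H DT XT _ X0 _ x M c r q =>
  Bool.rec false (Bool.rec false (beq (land M (shiftRight (lor (lor (n0 H r) (n0 H q)) (zq XT c)) (sub (nat_lit 4080) (land c (nat_lit 4080))))) M)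
    (beq (land (sub (sub X0 (zf H (nat_lit 81128709954854851177730365259775) (nat_lit 2801973672888163648873723073972345503744) q)) (e0 DT x c)) (nat_lit 1419612298781011615649678952475016771720260989886843619185417813866810540483857042694292115230126086047217080772174804203214903181312)) (nat_lit 1419612298781011615649678952475016771720260989886843619185417813866810540483857042694292115230126086047217080772174804169130042720256)))
    (beq (land (sub (sub X0 (zf H (nat_lit 81128709954854851177730365259775) (nat_lit 2801973672888163648873723073972345503744) r)) (e0 DT x c)) (nat_lit 1419612298781011615649678952475016771720260989886843619185417813866810540483857042694292115230126086047217080772174804203214903181312)) (nat_lit 1419612298781011615649678952475016771720260989886843619185417813866810540483857042694292115230126086047217080772174804169130042720256))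

def c5 : GD := fun H DT XT _ _ X1 x M c r q =>
  Bool.rec false (Bool.rec false (beq (land M (shiftRight (lor (lor (n1 H r) (n1 H q)) (zq XT c)) (sub (nat_lit 4080) (land c (nat_lit 4080))))) M)
    (beq (land (sub (sub X1 (zf H (nat_lit 81128709954854851177730365259775) (nat_lit 4163103140571917502727221503699418349568) q)) (e1 DT x c)) (nat_lit 1419612298781011615649678952475016771720260989886843619185417813866810540483857042694292115230126086047217080772174804203214903181312)) (nat_lit 1419612298781011615649678952475016771720260989886843619185417813866810540483857042694292115230126086047217080772174804169130042720256)))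
    (beq (land (sub (sub X1 (zf H (nat_lit 81128709954854851177730365259775) (nat_lit 4163103140571917502727221503699418349568) r)) (e1 DT x c)) (nat_lit 1419612298781011615649678952475016771720260989886843619185417813866810540483857042694292115230126086047217080772174804203214903181312)) (nat_lit 1419612298781011615649678952475016771720260989886843619185417813866810540483857042694292115230126086047217080772174804169130042720256))

def c6 : GS := fun H DT _ _ X0 _ x M c r =>
  Bool.rec false (beq (land M (shiftRight (n0 H r) (sub (nat_lit 4080) (land c (nat_lit 4080))))) M)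
    (beq (land (sub (sub (add X0 (nat_lit 68719476736)) (zf H (nat_lit 81128709954854851177730365259775) (nat_lit 2801973672888163648873723073972345503744) r)) (e0 DT x c)) (nat_lit 1419612298781011615649678952475016771720260989886843619185417813866810540483857042694292115230126086047217080772174804203214903181312)) (nat_lit 1419612298781011615649678952475016771720260989886843619185417813866810540483857042694292115230126086047217080772174804169130042720256))

def c7 : GS := fun H DT _ _ _ X1 x M c r =>
  Bool.rec false (beq (land M (shiftRight (n1 H r) (sub (nat_lit 4080) (land c (nat_lit 4080))))) M)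
    (beq (land (sub (sub (add X1 (nat_lit 68719476736)) (zf H (nat_lit 81128709954854851177730365259775) (nat_lit 4163103140571917502727221503699418349568) r)) (e1 DT x c)) (nat_lit 1419612298781011615649678952475016771720260989886843619185417813866810540483857042694292115230126086047217080772174804203214903181312)) (nat_lit 1419612298781011615649678952475016771720260989886843619185417813866810540483857042694292115230126086047217080772174804169130042720256))

def c8 : GS := fun H DT XT _ X0 _ x M c r =>
  Bool.rec false (beq (land M (shiftRight (lor (n0 H r) (zq XT c)) (sub (nat_lit 4080) (land c (nat_lit 4080))))) M)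
    (beq (land (sub (sub (add X0 (nat_lit 68719476736)) (zf H (nat_lit 81128709954854851177730365259775) (nat_lit 2801973672888163648873723073972345503744) r)) (e0 DT x c)) (nat_lit 1419612298781011615649678952475016771720260989886843619185417813866810540483857042694292115230126086047217080772174804203214903181312)) (nat_lit 1419612298781011615649678952475016771720260989886843619185417813866810540483857042694292115230126086047217080772174804169130042720256))

def c9 : GS := fun H DT XT _ _ X1 x M c r =>
  Bool.rec false (beq (land M (shiftRight (lor (n1 H r) (zq XT c)) (sub (nat_lit 4080) (land c (nat_lit 4080))))) M)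
    (beq (land (sub (sub (add X1 (nat_lit 68719476736)) (zf H (nat_lit 81128709954854851177730365259775) (nat_lit 4163103140571917502727221503699418349568) r)) (e1 DT x c)) (nat_lit 1419612298781011615649678952475016771720260989886843619185417813866810540483857042694292115230126086047217080772174804203214903181312)) (nat_lit 1419612298781011615649678952475016771720260989886843619185417813866810540483857042694292115230126086047217080772174804169130042720256))

def v0 : GD := fun H DT XT S X0 X1 x M c r q =>
  Bool.rec false (Bool.rec false (beq (land M (shiftRight (lor (lor (n0 H r) (n1 H q)) (zw XT S x c)) (sub (nat_lit 4080) (land c (nat_lit 4080))))) M)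
    (beq (land (sub (sub X1 (zf H (nat_lit 81128709954854851177730365259775) (nat_lit 4163103140571917502727221503699418349568) q)) (e1 DT x c)) (nat_lit 1419612298781011615649678952475016771720260989886843619185417813866810540483857042694292115230126086047217080772174804203214903181312)) (nat_lit 1419612298781011615649678952475016771720260989886843619185417813866810540483857042694292115230126086047217080772174804169130042720256)))
    (beq (land (sub (sub X0 (zf H (nat_lit 81128709954854851177730365259775) (nat_lit 2801973672888163648873723073972345503744) r)) (e0 DT x c)) (nat_lit 1419612298781011615649678952475016771720260989886843619185417813866810540483857042694292115230126086047217080772174804203214903181312)) (nat_lit 1419612298781011615649678952475016771720260989886843619185417813866810540483857042694292115230126086047217080772174804169130042720256))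

def v1 : GD := fun H DT XT S X0 _ x M c r q =>
  Bool.rec false (Bool.rec false (beq (land M (shiftRight (lor (lor (n0 H r) (n0 H q)) (zw XT S x c)) (sub (nat_lit 4080) (land c (nat_lit 4080))))) M)
    (beq (land (sub (sub X0 (zf H (nat_lit 81128709954854851177730365259775) (nat_lit 2801973672888163648873723073972345503744) q)) (e0 DT x c)) (nat_lit 1419612298781011615649678952475016771720260989886843619185417813866810540483857042694292115230126086047217080772174804203214903181312)) (nat_lit 1419612298781011615649678952475016771720260989886843619185417813866810540483857042694292115230126086047217080772174804169130042720256)))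
    (beq (land (sub (sub X0 (zf H (nat_lit 81128709954854851177730365259775) (nat_lit 2801973672888163648873723073972345503744) r)) (e0 DT x c)) (nat_lit 1419612298781011615649678952475016771720260989886843619185417813866810540483857042694292115230126086047217080772174804203214903181312)) (nat_lit 1419612298781011615649678952475016771720260989886843619185417813866810540483857042694292115230126086047217080772174804169130042720256))

def v2 : GS := fun H DT XT S X0 _ x M c r =>
  Bool.rec false (beq (land M (shiftRight (lor (n0 H r) (zw XT S x c)) (sub (nat_lit 4080) (land c (nat_lit 4080))))) M)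
    (beq (land (sub (sub (add X0 (nat_lit 68719476736)) (zf H (nat_lit 81128709954854851177730365259775) (nat_lit 2801973672888163648873723073972345503744) r)) (e0 DT x c)) (nat_lit 1419612298781011615649678952475016771720260989886843619185417813866810540483857042694292115230126086047217080772174804203214903181312)) (nat_lit 1419612298781011615649678952475016771720260989886843619185417813866810540483857042694292115230126086047217080772174804169130042720256))

def v3 : GS := fun H DT XT S _ X1 x M c r =>
  Bool.rec false (beq (land M (shiftRight (lor (n1 H r) (zw XT S x c)) (sub (nat_lit 4080) (land c (nat_lit 4080))))) M)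
    (beq (land (sub (sub (add X1 (nat_lit 68719476736)) (zf H (nat_lit 81128709954854851177730365259775) (nat_lit 4163103140571917502727221503699418349568) r)) (e1 DT x c)) (nat_lit 1419612298781011615649678952475016771720260989886843619185417813866810540483857042694292115230126086047217080772174804203214903181312)) (nat_lit 1419612298781011615649678952475016771720260989886843619185417813866810540483857042694292115230126086047217080772174804169130042720256))

def l3 (H DT MT : Tr) (XT S s4 s5 I C x X0 X1 A : Nat) (g : Nat → Nat → Nat → Nat → Bool) (ih : Nat → Nat → Bool)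
    (s M : Nat) : Bool :=
  Bool.rec (l2 MT XT S s4 s5 g g (nat_lit 1) (nat_lit 2) A ih s M)
    (Nat.rec false (fun c _ => Bool.rec
      (Bool.rec false (ih (shiftRight s (land (shiftRight s (nat_lit 18)) (nat_lit 127))) (xor M (shiftLeft (nat_lit 1) c)))
        (Bool.rec (motive := fun _ => Tr → Tr → Nat → MV → Nat → Nat → Nat → Nat → Nat → KT3 → KT3) mq (Bool.rec (mg C (nat_lit 0)) (Bool.rec (a7 (nat_lit 81128709954854851177730365259775) (nat_lit 81128709954854851177730365259775) (nat_lit 0) (nat_lit 1419612298781011615649678952475016771720260989886843619185417813866810540483857042694292115230126086047217080772174804169130042720256) (nat_lit 1419612298781011615649678952475016771720260989886843619185417813866810540483857042694292115230126086047217080772174804169130042720256)) (a4 (nat_lit 81128709954854851177730365259775) (nat_lit 81128709954854851177730365259775) (nat_lit 0) (nat_lit 1419612298781011615649678952475016771720260989886843619185417813866810540483857042694292115230126086047217080772174804169130042720256) (nat_lit 1419612298781011615649678952475016771720260989886843619185417813866810540483857042694292115230126086047217080772174804169130042720256))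 (ble (land s (nat_lit 503316480)) (nat_lit 134217728))) (ble (land s (nat_lit 503316480)) (nat_lit 234881024))) (ble (land s (nat_lit 503316480)) (nat_lit 369098752)) H DT I mz X0 X1 x c (nat_lit 1) kz (shiftRight s (nat_lit 22))
          (Bool.rec (xor M (land M (shiftRight (zw XT S x c) (sub (nat_lit 4080) (land c (nat_lit 4080))))))
            (Bool.rec (xor M (land M (zs XT c))) M (beq (land s (nat_lit 131072)) (nat_lit 0))) (beq (land s (nat_lit 2)) (nat_lit 0))) (nat_lit 255)))
      (Bool.rec false (ih (shiftRight s (nat_lit 34)) (xor M (shiftLeft (nat_lit 1) c)))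
        (Nat.rec false (fun r _ => Bool.rec (motive := fun _ => GS) (Bool.rec (Bool.rec v3 v2 (ble (land s (nat_lit 14)) (nat_lit 8))) (Bool.rec c9 c8 (ble (land s (nat_lit 14)) (nat_lit 4))) (ble (land s (nat_lit 14)) (nat_lit 6)))
          (Bool.rec c7 c6 (ble (land s (nat_lit 14)) (nat_lit 0))) (ble (land s (nat_lit 14)) (nat_lit 2)) H DT XT S X0 X1 x M c r) (land (shiftRight s (nat_lit 17)) (nat_lit 131071))))
      (ble (land s (nat_lit 14)) (nat_lit 10))) (land (shiftRight s (nat_lit 5)) (nat_lit 4095))) (beq (land s (nat_lit 1)) (nat_lit 1))

/-- the cell of the first point that is woken by a single robot -/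
def lg (H DT MT : Tr) (XT S s4 s5 I C x X0 X1 A : Nat) (g : Nat → Nat → Nat → Nat → Bool) : Nat → Nat → Bool :=
  Nat.rec (motive := fun _ => Nat → Nat → Bool) (fun _ _ => false)
    (fun _ ih s M => Bool.rec (l3 H DT MT XT S s4 s5 I C x X0 X1 A g ih s M)
      (Nat.rec false (fun c _ => Bool.rec false (ih (shiftRight s (nat_lit 51)) (xor M (shiftLeft (nat_lit 1) c)))
        (Nat.rec false (fun r _ => Nat.rec false (fun q _ => Bool.rec (motive := fun _ => GD)
          (Bool.rec (Bool.rec (Bool.rec v1 v0 (ble (land s (nat_lit 14)) (nat_lit 12))) (Bool.rec c5 c4 (ble (land s (nat_lit 14)) (nat_lit 8))) (ble (land s (nat_lit 14)) (nat_lit 10))) c3 (ble (land s (nat_lit 14)) (nat_lit 6)))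
          (Bool.rec (Bool.rec c2 c1 (ble (land s (nat_lit 14)) (nat_lit 2))) c0 (ble (land s (nat_lit 14)) (nat_lit 0))) (ble (land s (nat_lit 14)) (nat_lit 4)) H DT XT S X0 X1 x M c r q)
          (land (shiftRight s (nat_lit 34)) (nat_lit 131071))) (land (shiftRight s (nat_lit 17)) (nat_lit 131071)))) (land (shiftRight s (nat_lit 5)) (nat_lit 4095)))
      (beq (land s (nat_lit 17)) (nat_lit 1))) (nat_lit 9999)

def g0 (H DT MT : Tr) (XT S s4 s5 I C x X0 X1 A K : Nat) (g : Nat → Nat → Nat → Nat → Bool) : Nat → Nat → Bool :=
  Nat.rec (motive := fun _ => Nat → Nat → Bool) (lg H DT MT XT S s4 s5 I C x X0 X1 A g)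
    (fun _ _ => ls MT XT S s4 s5 g g (nat_lit 1) (nat_lit 2) (nat_lit 12) A) K

def gf (H DT MT : Tr) (XT S s4 s5 i s h : Nat) : Bool :=
  fb (bt h (nat_lit 40) (nat_lit 31)) fun j => fb (add j (nat_lit 1920)) fun x => fb (nf h) fun C => fb (add (xa i h) (nat_lit 34084860461056)) fun X0 =>
    fb (add (xb i h) (nat_lit 34084860461056)) fun X1 => fb (mul x (nat_lit 19342813113834066795298817)) fun A => fb (bt h (nat_lit 36) (nat_lit 3)) fun K =>
      g0 H DT MT XT S s4 s5 (add (mul i (nat_lit 10889035741470030830827987437816582766592)) (nat_lit 1419612298781011615649678952475016771720260989886843619185417813866810540483857042694292115229014230638747742532099027116372690731008)) C x X0 X1 A K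
        (lw H x (tj (fun _ => pi i (land h (nat_lit 81128709954854851177730365259775))) x) (tj (fun _ => pi i (sw h)) x) X0 X1 K
          (mv H DT (add (mul i (nat_lit 10889035741470030830827987437816582766592)) (nat_lit 1419612298781011615649678952475016771720260989886843619185417813866810540483857042694292115229014230638747742532099027116372690731008)) C)
          (lfN H DT i C x (pi i (land h (nat_lit 81128709954854851177730365259775))) (pi i (sw h)) (xa i h) (xb i h) (add K (nat_lit 1))))
        (pt MT s) (nm XT h j)

/-- the check of a node -/
def nod (H DT MT : Tr) (XT S s4 s5 R m i s : Nat) : Bool :=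
  Bool.rec (Q.nod H DT MT XT S s4 s5 R m i s)
    (fb (land (hx H (mul i (nat_lit 8))) (nat_lit 340282366920938463463374607431768211455)) fun h => Bool.rec false (gf H DT MT XT S s4 s5 i (shiftRight s (nat_lit 17)) h) (nc m h))
    (beq (land s (nat_lit 98304)) (nat_lit 98304))

end

end Pool.Agent.MP_1037db_co.F
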